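import Mathlib

/-!
# MP_664517_co: finitely many `K_p`-free 3-total-domination edge-critical graphs

For every `p` there are only finitely many `K_p`-free `3_t`EC graphs.

Idea of the proof. If `G` is `3_t`EC and `u`, `v` are non-adjacent vertices with a common
non-neighbour, then (up to exchanging `u` and `v`) there is a neighbour `w` of `u` such that `v` is
the only vertex with no neighbour in `{u, w}` (`Wit u v w`).  If `G` is `K_p`-free, one finds a
linear-size set `A` of vertices in which all degrees are tiny.  Inside `A`, by the pigeonhole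
principle, one `w` serves a linear number of vertices `u`, and then all of them with the same `v`,
because the degrees inside `A` are tiny.  Iterating `p` times inside the set of those `u` gives
`w_1, ..., w_p`, which turn out to be pairwise adjacent.
-/

namespace Pool.Agent.Results.MP_664517_co.Finiteness

open SimpleGraph Finset

universe u

/-- `S` is a total dominating set of `G`: every vertex (of `S` or not) has a neighbour in `S`. -/
def TotalDom {V : Type u} (G : SimpleGraph V) (S : Finset V) : Prop :=
  ∀ v, ∃ s ∈ S, G.Adj v s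

/-- The total domination number: the minimum size of a total dominating set. -/
noncomputable def gammaT {V : Type u} (G : SimpleGraph V) : ℕ :=
  sInf {k | ∃ S : Finset V, S.card = k ∧ TotalDom G S}

/-- `G` is 3-total-domination edge-critical: it has no isolated vertices, `gammaT G = 3`, and
adding any missing edge `uv` makes the total domination number smaller than `3`. -/
def Is3tEC {V : Type u} (G : SimpleGraph V) : Prop :=
  (∀ v, ∃ w, G.Adj v w) ∧ gammaT G = 3 ∧
    ∀ u v, u ≠ v → ¬ G.Adj u v → gammaT (G ⊔ SimpleGraph.edge u v) < 3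

/-- `w` is a neighbour of `u` and `v` is the only vertex with no neighbour in `{u, w}`. -/
def Wit {V : Type u} (G : SimpleGraph V) (u v w : V) : Prop :=
  G.Adj w u ∧ ∀ z, (G.Adj z u ∨ G.Adj z w) ↔ z ≠ v

/-- The combinatorial property used in the proof. -/
def PropW {V : Type u} (G : SimpleGraph V) : Prop :=
  ∀ u v, u ≠ v → ¬ G.Adj u v → (∃ z, z ≠ u ∧ z ≠ v ∧ ¬ G.Adj z u ∧ ¬ G.Adj z v) →
    ∃ w, Wit G u v w ∨ Wit G v u w

theorem propW_of {V : Type u} [Fintype V] [DecidableEq V] (G : SimpleGraph V) (h : Is3tEC G) :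
    PropW G := by
  obtain ⟨hiso, hg, hadd⟩ := h
  have hno : ∀ S : Finset V, S.card < 3 → ¬ TotalDom G S := by
    intro S hS hT
    have : gammaT G ≤ S.card := Nat.sInf_le ⟨S, rfl, hT⟩
    omega
  have key : ∀ u v, u ≠ v → ¬ G.Adj u v → (∃ z, z ≠ u ∧ z ≠ v ∧ ¬ G.Adj z u ∧ ¬ G.Adj z v) →
      ∀ S : Finset V, S.card < 3 → TotalDom (G ⊔ SimpleGraph.edge u v) S → u ∈ S →
      (∀ s ∈ S, ¬ G.Adj v s) → ∃ w, Wit G u v w := by
    intro u v huv hnadj ⟨z, hzu, hzv, hz1, hz2⟩ S hS hT huS hvS
    have hadj : ∀ a b, (G ⊔ SimpleGraph.edge u v).Adj a b ↔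
        (G.Adj a b ∨ ((a = u ∧ b = v) ∨ (a = v ∧ b = u)) ∧ a ≠ b) := by
      intro a b
      rw [SimpleGraph.sup_adj, SimpleGraph.edge_adj]
    obtain ⟨t, htS, hut⟩ := hT u
    have htu : t ≠ u := fun h => by rw [h] at hut; exact hut.ne rfl
    have hSeq : S = {u, t} := by
      symm
      apply Finset.eq_of_subset_of_card_le
      · intro x hx
        simp only [Finset.mem_insert, Finset.mem_singleton] at hx
        rcases hx with rfl | rfl <;> assumption
      · rw [Finset.card_pair (Ne.symm htu)]
        omega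
    have htv : t ≠ v := by
      rintro rfl
      obtain ⟨s, hsS, hzs⟩ := hT z
      rw [hSeq] at hsS
      simp only [Finset.mem_insert, Finset.mem_singleton] at hsS
      rw [hadj] at hzs
      rcases hsS with rfl | rfl
      · rcases hzs with h | ⟨⟨h, -⟩ | ⟨h, -⟩, -⟩
        · exact hz1 h
        · exact hzu h
        · exact hzv h
      · rcases hzs with h | ⟨⟨h, -⟩ | ⟨h, -⟩, -⟩
        · exact hz2 h
        · exact hzu h
        · exact hzv h
    have hut' : G.Adj u t := by
      rw [hadj] at hut
      rcases hut with h | ⟨⟨-, h⟩ | ⟨h, -⟩, -⟩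
      · exact h
      · exact absurd h htv
      · exact absurd h huv
    refine ⟨t, hut'.symm, fun x => ⟨?_, ?_⟩⟩
    · rintro (h | h) rfl
      · exact hvS u huS h
      · exact hvS t htS h
    · intro hxv
      by_cases hxu : x = u
      · right
        rw [hxu]
        exact hut'
      · obtain ⟨s, hsS, hxs⟩ := hT x
        rw [hSeq] at hsS
        simp only [Finset.mem_insert, Finset.mem_singleton] at hsS
        rw [hadj] at hxs
        rcases hxs with h | ⟨⟨h, -⟩ | ⟨h, -⟩, -⟩
        · rcases hsS with rfl | rfl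
          · exact Or.inl h
          · exact Or.inr h
        · exact absurd h hxu
        · exact absurd h hxv
  intro u v huv hnadj hz
  have hlt := hadd u v huv hnadj
  have hne : {k | ∃ S : Finset V, S.card = k ∧
      TotalDom (G ⊔ SimpleGraph.edge u v) S}.Nonempty := by
    refine ⟨_, Finset.univ, rfl, fun x => ?_⟩
    obtain ⟨y, hy⟩ := hiso x
    exact ⟨y, Finset.mem_univ _, (le_sup_left : G ≤ G ⊔ SimpleGraph.edge u v) hy⟩
  obtain ⟨S, hScard, hT⟩ := Nat.sInf_mem hne
  have hS : S.card < 3 := by
    rw [hScard]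
    exact hlt
  have hnT := hno S hS
  unfold TotalDom at hnT
  push Not at hnT
  obtain ⟨x, hx⟩ := hnT
  obtain ⟨s, hsS, hxs⟩ := hT x
  have hns := hx s hsS
  rw [SimpleGraph.sup_adj, SimpleGraph.edge_adj] at hxs
  rcases hxs with h | ⟨h, -⟩
  · exact absurd h hns
  · have h' : (x = u ∧ s = v) ∨ (x = v ∧ s = u) := by tauto
    rcases h' with ⟨rfl, rfl⟩ | ⟨rfl, rfl⟩
    · -- here `v ∈ S` and `u` has no neighbour in `S`
      obtain ⟨z, h1, h2, h3, h4⟩ := hz
      obtain ⟨w, hw⟩ := key s x (Ne.symm huv) (fun h => hnadj h.symm) ⟨z, h2, h1, h4, h3⟩ S hS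
        (by rwa [SimpleGraph.edge_comm]) hsS hx
      exact ⟨w, Or.inr hw⟩
    · obtain ⟨w, hw⟩ := key s x huv hnadj hz S hS hT hsS hx
      exact ⟨w, Or.inl hw⟩

/-- The recursively defined constants of `clique_in_sparse`. -/
def K : ℕ → ℕ → ℕ
  | 0, _ => 1
  | m + 1, C => 8 * C ^ 2 + 4 * C + K m (4 * C ^ 2)

theorem clique_in_sparse {V : Type u} [Fintype V] [DecidableEq V] (G : SimpleGraph V)
    [DecidableRel G.Adj] (hW : PropW G) (D : ℕ) :
    ∀ (m C : ℕ) (A : Finset V), 1 ≤ C → Fintype.card V ≤ C * A.card → K m C ≤ D →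
      K m C ≤ Fintype.card V →
      (∀ x ∈ A, D * (A.filter (fun y => G.Adj x y)).card < Fintype.card V) →
      ∃ Q : Finset V, G.IsNClique m Q ∧ ∀ w ∈ Q, (∃ v ∈ A, ¬ G.Adj w v) ∧ (∃ u ∈ A, G.Adj w u) := by
  classical
  intro m
  induction m with
  | zero =>
    intro C A _ _ _ _ _
    exact ⟨∅, by simp [SimpleGraph.isNClique_iff], by simp⟩
  | succ m ih =>
    intro C A hC hA hD hn hdeg
    set n := Fintype.card V with hndef
    simp only [K] at hD hn
    have hC2 : 1 ≤ C ^ 2 := Nat.one_le_pow _ _ hC
    have hnpos : 0 < n := by omega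
    -- degrees
    have hd4 : ∀ x ∈ A, 4 * (A.filter (fun y => G.Adj x y)).card < A.card := by
      intro x hx
      have h1 := hdeg x hx
      have h2 : 4 * C * (A.filter (fun y => G.Adj x y)).card ≤
          D * (A.filter (fun y => G.Adj x y)).card := Nat.mul_le_mul_right _ (by omega)
      have h3 : C * (4 * (A.filter (fun y => G.Adj x y)).card) < C * A.card := by nlinarith
      exact lt_of_mul_lt_mul_left h3 (Nat.zero_le _)
    have hA4 : 4 ≤ A.card := by
      by_contra hlt
      push Not at hlt
      have : C * A.card ≤ C * 3 := Nat.mul_le_mul_left _ (by omega)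
      omega
    -- the pairs
    let P : Finset (V × V) := (A ×ˢ A).filter (fun q => q.1 ≠ q.2 ∧ ¬ G.Adj q.1 q.2)
    let Q0 : Finset (V × V) := (A ×ˢ A).filter (fun q => ∃ w, Wit G q.1 q.2 w)
    have hPQ : ∀ q ∈ P, q ∈ Q0 ∨ q.swap ∈ Q0 := by
      rintro ⟨u, v⟩ hq
      simp only [P, Finset.mem_filter, Finset.mem_product] at hq
      obtain ⟨⟨hu, hv⟩, huv, hnadj⟩ := hq
      have hex : ∃ z, z ≠ u ∧ z ≠ v ∧ ¬ G.Adj z u ∧ ¬ G.Adj z v := by
        by_contra hno
        push Not at hno
        have hsub : A ⊆ ({u, v} : Finset V) ∪ (A.filter (fun y => G.Adj u y) ∪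
            A.filter (fun y => G.Adj v y)) := by
          intro z hz
          simp only [Finset.mem_union, Finset.mem_insert, Finset.mem_singleton, Finset.mem_filter]
          by_cases h1 : z = u
          · exact Or.inl (Or.inl h1)
          by_cases h2 : z = v
          · exact Or.inl (Or.inr h2)
          by_cases h3 : G.Adj z u
          · exact Or.inr (Or.inl ⟨hz, h3.symm⟩)
          · exact Or.inr (Or.inr ⟨hz, (hno z h1 h2 h3).symm⟩)
        have h1 := Finset.card_le_card hsub
        have h2 := Finset.card_union_le ({u, v} : Finset V) (A.filter (fun y => G.Adj u y) ∪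
            A.filter (fun y => G.Adj v y))
        have h3 := Finset.card_union_le (A.filter (fun y => G.Adj u y))
            (A.filter (fun y => G.Adj v y))
        have h4 : ({u, v} : Finset V).card ≤ 2 := Finset.card_le_two
        have h5 := hd4 u hu
        have h6 := hd4 v hv
        omega
      obtain ⟨w, hw | hw⟩ := hW u v huv hnadj hex
      · left
        simp only [Q0, Finset.mem_filter, Finset.mem_product]
        exact ⟨⟨hu, hv⟩, w, hw⟩
      · right
        simp only [Q0, Finset.mem_filter, Finset.mem_product, Prod.swap]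
        exact ⟨⟨hv, hu⟩, w, hw⟩
    have hPle : P.card ≤ 2 * Q0.card := by
      have hsub : P ⊆ Q0 ∪ Q0.image Prod.swap := by
        intro q hq
        rcases hPQ q hq with h | h
        · exact Finset.mem_union_left _ h
        · apply Finset.mem_union_right
          rw [Finset.mem_image]
          exact ⟨q.swap, h, Prod.swap_swap q⟩
      have h1 := Finset.card_le_card hsub
      have h2 := Finset.card_union_le Q0 (Q0.image Prod.swap)
      have h3 : (Q0.image Prod.swap).card ≤ Q0.card := Finset.card_image_le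
      omega
    have hPge : A.card * A.card ≤ 2 * P.card := by
      -- fibrewise count
      have h1 : ∑ x ∈ A, (A.filter (fun y => x ≠ y ∧ ¬ G.Adj x y)).card ≤ P.card := by
        have hfib : P.card = ∑ x ∈ A, (P.filter (fun q => q.1 = x)).card := by
          apply Finset.card_eq_sum_card_fiberwise
          intro q hq
          have hq1 := (Finset.mem_filter.mp (Finset.mem_coe.mp hq)).1
          exact Finset.mem_coe.mpr (Finset.mem_product.mp hq1).1
        rw [hfib]
        apply Finset.sum_le_sum
        intro x hx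
        apply Finset.card_le_card_of_injOn (fun y => (x, y))
        · intro y hy
          have hy1 := Finset.mem_filter.mp (Finset.mem_coe.mp hy)
          apply Finset.mem_coe.mpr
          simp only [P, Finset.mem_filter, Finset.mem_product]
          exact ⟨⟨⟨hx, hy1.1⟩, hy1.2⟩, trivial⟩
        · intro y _ y' _ hyy
          exact (Prod.mk.inj hyy).2
      have h2 : ∀ x ∈ A, A.card ≤ 2 * (A.filter (fun y => x ≠ y ∧ ¬ G.Adj x y)).card := by
        intro x hx
        have hsub : A ⊆ ({x} : Finset V) ∪ (A.filter (fun y => G.Adj x y) ∪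
            A.filter (fun y => x ≠ y ∧ ¬ G.Adj x y)) := by
          intro z hz
          simp only [Finset.mem_union, Finset.mem_singleton, Finset.mem_filter]
          by_cases h1 : z = x
          · exact Or.inl h1
          by_cases h2 : G.Adj x z
          · exact Or.inr (Or.inl ⟨hz, h2⟩)
          · exact Or.inr (Or.inr ⟨hz, Ne.symm h1, h2⟩)
        have h1 := Finset.card_le_card hsub
        have h2 := Finset.card_union_le ({x} : Finset V) (A.filter (fun y => G.Adj x y) ∪
            A.filter (fun y => x ≠ y ∧ ¬ G.Adj x y))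
        have h3 := Finset.card_union_le (A.filter (fun y => G.Adj x y))
            (A.filter (fun y => x ≠ y ∧ ¬ G.Adj x y))
        have h4 : ({x} : Finset V).card = 1 := Finset.card_singleton x
        have h5 := hd4 x hx
        omega
      calc A.card * A.card = ∑ x ∈ A, A.card := by rw [Finset.sum_const, smul_eq_mul]
        _ ≤ ∑ x ∈ A, 2 * (A.filter (fun y => x ≠ y ∧ ¬ G.Adj x y)).card := Finset.sum_le_sum h2
        _ ≤ 2 * P.card := by
            rw [← Finset.mul_sum]
            exact Nat.mul_le_mul_left _ h1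
    -- choose witnesses
    have hwit : ∀ q ∈ Q0, ∃ w, Wit G q.1 q.2 w := by
      intro q hq
      exact (Finset.mem_filter.mp hq).2
    have hVne : Nonempty V := by
      rw [← Fintype.card_pos_iff]
      exact hnpos
    let f : V × V → V := fun q => if h : ∃ w, Wit G q.1 q.2 w then h.choose else hVne.some
    have hf : ∀ q ∈ Q0, Wit G q.1 q.2 (f q) := by
      intro q hq
      have h := hwit q hq
      simp only [f, dif_pos h]
      exact h.choose_spec
    obtain ⟨w, hw⟩ : ∃ w, Q0.card ≤ n * (Q0.filter (fun q => f q = w)).card := by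
      by_contra hno
      push Not at hno
      have h1 : Q0.card = ∑ w : V, (Q0.filter (fun q => f q = w)).card := by
        rw [← Finset.card_eq_sum_card_fiberwise]
        intro x _
        exact Finset.mem_coe.mpr (Finset.mem_univ _)
      have h2 : ∑ w : V, n * (Q0.filter (fun q => f q = w)).card < ∑ _w : V, Q0.card :=
        Finset.sum_lt_sum_of_nonempty ⟨hVne.some, Finset.mem_univ _⟩ (fun w _ => hno w)
      rw [← Finset.mul_sum, ← h1, Finset.sum_const, Finset.card_univ, smul_eq_mul] at h2
      exact lt_irrefl _ h2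
    -- the set `U`
    let F := Q0.filter (fun q => f q = w)
    let U : Finset V := F.image Prod.fst
    have hFmem : ∀ q ∈ F, q.1 ∈ A ∧ q.2 ∈ A ∧ Wit G q.1 q.2 w := by
      intro q hq
      have hq1 := Finset.mem_filter.mp hq
      have hq2 := Finset.mem_filter.mp hq1.1
      have hq3 := Finset.mem_product.mp hq2.1
      refine ⟨hq3.1, hq3.2, ?_⟩
      have := hf q hq1.1
      rwa [hq1.2] at this
    have huniq : ∀ u v v', Wit G u v w → Wit G u v' w → v = v' := by
      intro u v v' h h'
      by_contra hne
      have h1 := (h'.2 v).2 hne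
      exact (h.2 v).1 h1 rfl
    have hUcard : U.card = F.card := by
      apply Finset.card_image_of_injOn
      rintro ⟨a, b⟩ hab ⟨c, d⟩ hcd hac
      simp only at hac
      subst hac
      have h1 := (hFmem _ (Finset.mem_coe.mp hab)).2.2
      have h2 := (hFmem _ (Finset.mem_coe.mp hcd)).2.2
      have h3 : b = d := huniq _ _ _ h1 h2
      rw [h3]
    have hUA : U ⊆ A := by
      intro x hx
      obtain ⟨q, hq, rfl⟩ := Finset.mem_image.mp hx
      exact (hFmem q hq).1
    -- lower bound on |U|
    have hUbig : n ≤ 4 * C ^ 2 * U.card := by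
      have h1 : A.card * A.card ≤ 4 * (n * U.card) := by
        rw [hUcard]
        have : F.card = (Q0.filter (fun q => f q = w)).card := rfl
        rw [this]
        omega
      have h2 : n * n ≤ (C * A.card) * (C * A.card) := Nat.mul_le_mul hA hA
      have h3 : n * n ≤ n * (4 * C ^ 2 * U.card) := by
        calc n * n ≤ (C * A.card) * (C * A.card) := h2
          _ = C ^ 2 * (A.card * A.card) := by ring
          _ ≤ C ^ 2 * (4 * (n * U.card)) := Nat.mul_le_mul_left _ h1
          _ = n * (4 * C ^ 2 * U.card) := by ring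
      exact Nat.le_of_mul_le_mul_left h3 hnpos
    have hUne : U.Nonempty := by
      rw [← Finset.card_pos]
      by_contra h0
      have : U.card = 0 := by omega
      rw [this] at hUbig
      omega
    -- all the `v` are the same
    obtain ⟨v₁, hv₁A, hv₁⟩ : ∃ v₁ ∈ A, ∀ u ∈ U, Wit G u v₁ w := by
      obtain ⟨u₁, hu₁⟩ := hUne
      obtain ⟨⟨a, v₁⟩, hq, rfl⟩ := Finset.mem_image.mp hu₁
      obtain ⟨haA, hv₁A, hW1⟩ := hFmem _ hq
      refine ⟨v₁, hv₁A, ?_⟩
      by_contra hno
      push Not at hno
      obtain ⟨u₂, hu₂, hW2⟩ := hno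
      obtain ⟨⟨b, v₂⟩, hq2, rfl⟩ := Finset.mem_image.mp hu₂
      obtain ⟨hbA, hv₂A, hW3⟩ := hFmem _ hq2
      simp only at haA hv₁A hW1 hbA hv₂A hW3 hW2
      have hv12 : v₁ ≠ v₂ := by
        rintro rfl
        exact hW2 hW3
      have hsub : U ⊆ A.filter (fun y => G.Adj v₁ y) ∪ A.filter (fun y => G.Adj v₂ y) := by
        intro x hx
        obtain ⟨⟨x', y⟩, hq3, rfl⟩ := Finset.mem_image.mp hx
        obtain ⟨hxA, hyA, hWx⟩ := hFmem _ hq3
        simp only at hxA hyA hWx
        simp only [Finset.mem_union, Finset.mem_filter]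
        by_cases hy : y = v₁
        · right
          refine ⟨hxA, ?_⟩
          have h1 : v₂ ≠ y := by
            rw [hy]
            exact Ne.symm hv12
          rcases (hWx.2 v₂).2 h1 with h | h
          · exact h
          · exact absurd rfl ((hW3.2 v₂).1 (Or.inr h))
        · left
          refine ⟨hxA, ?_⟩
          rcases (hWx.2 v₁).2 (Ne.symm hy) with h | h
          · exact h
          · exact absurd rfl ((hW1.2 v₁).1 (Or.inr h))
      have h1 := Finset.card_le_card hsub
      have h2 := Finset.card_union_le (A.filter (fun y => G.Adj v₁ y))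
        (A.filter (fun y => G.Adj v₂ y))
      have h3 := hdeg v₁ hv₁A
      have h4 := hdeg v₂ hv₂A
      have h5 : D * U.card ≤ D * (A.filter (fun y => G.Adj v₁ y)).card +
          D * (A.filter (fun y => G.Adj v₂ y)).card := by
        rw [← Nat.mul_add]
        exact Nat.mul_le_mul_left _ (h1.trans h2)
      have h6 : 8 * C ^ 2 * U.card ≤ D * U.card := Nat.mul_le_mul_right _ (by omega)
      have h7 : 8 * C ^ 2 * U.card = 2 * (4 * C ^ 2 * U.card) := by ring
      omega
    -- recursion
    obtain ⟨Q', hQ', hQ'2⟩ := ih (4 * C ^ 2) U (by omega) hUbig (by omega) (by omega)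
      (by
        intro x hx
        have h1 := hdeg x (hUA hx)
        have h2 : (U.filter (fun y => G.Adj x y)).card ≤ (A.filter (fun y => G.Adj x y)).card :=
          Finset.card_le_card (Finset.filter_subset_filter _ hUA)
        exact lt_of_le_of_lt (Nat.mul_le_mul_left _ h2) h1)
    have hadjw : ∀ b ∈ Q', G.Adj w b := by
      intro b hb
      obtain ⟨⟨v, hvU, hbv⟩, ⟨u, huU, hbu⟩⟩ := hQ'2 b hb
      have hbv1 : b ≠ v₁ := by
        rintro rfl
        have := ((hv₁ u huU).2 b).1 (Or.inl hbu)
        exact this rfl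
      rcases ((hv₁ v hvU).2 b).2 hbv1 with h | h
      · exact absurd h hbv
      · exact h.symm
    refine ⟨insert w Q', hQ'.insert hadjw, ?_⟩
    intro b hb
    rw [Finset.mem_insert] at hb
    rcases hb with rfl | hb
    · obtain ⟨u, hu⟩ := hUne
      refine ⟨⟨v₁, hv₁A, fun h => ?_⟩, ⟨u, hUA hu, (hv₁ u hu).1⟩⟩
      exact ((hv₁ u hu).2 v₁).1 (Or.inr h.symm) rfl
    · obtain ⟨⟨v, hvU, hbv⟩, ⟨u, huU, hbu⟩⟩ := hQ'2 b hb
      exact ⟨⟨v, hUA hvU, hbv⟩, ⟨u, hUA huU, hbu⟩⟩

/-- The recursively defined bounds of `clique_or`. -/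
def L (p : ℕ) : ℕ → ℕ → ℕ
  | 0, _ => 0
  | k + 1, C => K p C + L p k (K p C)

theorem K_pos (m C : ℕ) : 1 ≤ K m C := by
  induction m generalizing C with
  | zero => simp [K]
  | succ m ih =>
    simp only [K]
    have := ih (4 * C ^ 2)
    omega

theorem clique_or {V : Type u} [Fintype V] [DecidableEq V] (G : SimpleGraph V)
    [DecidableRel G.Adj] (hW : PropW G) (p : ℕ) (hp : G.CliqueFree p) :
    ∀ (k C : ℕ) (A : Finset V), 1 ≤ C → Fintype.card V ≤ C * A.card →
      L p k C ≤ Fintype.card V → ∃ Q : Finset V, G.IsNClique k Q ∧ Q ⊆ A := by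
  intro k
  induction k with
  | zero =>
    intro C A _ _ _
    exact ⟨∅, by simp [SimpleGraph.isNClique_iff], by simp⟩
  | succ k ih =>
    intro C A hC hA hL
    simp only [L] at hL
    by_cases hx : ∃ x ∈ A, Fintype.card V ≤ K p C * (A.filter (fun y => G.Adj x y)).card
    · obtain ⟨x, hxA, hx⟩ := hx
      obtain ⟨Q, hQ, hQs⟩ := ih (K p C) _ (K_pos p C) hx (by omega)
      refine ⟨insert x Q, hQ.insert ?_, ?_⟩
      · intro b hb
        exact (Finset.mem_filter.mp (hQs hb)).2
      · intro b hb
        rcases Finset.mem_insert.mp hb with rfl | hb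
        · exact hxA
        · exact (Finset.mem_filter.mp (hQs hb)).1
    · push Not at hx
      obtain ⟨Q, hQ, -⟩ := clique_in_sparse G hW (K p C) p C A hC hA le_rfl (by omega) hx
      exact absurd hQ (hp Q)

theorem card_lt {V : Type u} [Fintype V] (G : SimpleGraph V) (p : ℕ) (h : Is3tEC G)
    (hp : G.CliqueFree p) : Fintype.card V < L p p 1 := by
  classical
  by_contra hlt
  push Not at hlt
  obtain ⟨Q, hQ, -⟩ := clique_or G (propW_of G h) p hp p 1 Finset.univ le_rfl
    (by rw [Finset.card_univ, one_mul]) hlt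
  exact hp Q hQ

/-- For every `p` there is a finite set of graphs such that every `K_p`-free 3-total-domination
edge-critical graph is isomorphic to one of them. -/
theorem result (p : ℕ) :
    ∃ F : Set (Σ n : ℕ, SimpleGraph (Fin n)), F.Finite ∧
      ∀ (V : Type u) [Fintype V] (G : SimpleGraph V), Is3tEC G → G.CliqueFree p →
        ∃ H ∈ F, Nonempty (G ≃g H.2) := by
  classical
  refine ⟨⋃ n ∈ Finset.range (L p p 1), Set.range (fun G : SimpleGraph (Fin n) =>
    (⟨n, G⟩ : Σ n : ℕ, SimpleGraph (Fin n))), ?_, ?_⟩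
  · refine Set.Finite.biUnion (Finset.finite_toSet _) (fun n _ => Set.finite_range _)
  · intro V _ G hG hp
    have hlt := card_lt G p hG hp
    let e := Fintype.equivFin V
    refine ⟨⟨Fintype.card V, G.map e.toEmbedding⟩, ?_, ⟨SimpleGraph.Iso.map e G⟩⟩
    simp only [Finset.mem_range, Set.mem_iUnion, Set.mem_range]
    exact ⟨Fintype.card V, hlt, _, rfl⟩

end Pool.Agent.Results.MP_664517_co.Finiteness
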